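import Pool.Agent.W447.UT.Final
import Pool.Agent.W447.UT.Lift

/-! The faithful 3-block of `SL(2, 9)`: its decomposition matrix is not unitriangular. -/

set_option autoImplicit false

namespace Pool.Agent.Results.MP_5c3aa2_al.FaithfulBlockSL29

open Pool.Agent.W447.UT

/-- The group `SL(2, 9)` (the double cover of the alternating group of degree six, with simple
quotient `PSL(2, 9)`, isomorphic to the derived group of `Sp(4, 2)`) is perfect, its quotient by
the centre is simple, and it has a 3-block such that no ordinary irreducible character of the block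
restricts to an irreducible Brauer character of the block; the decomposition matrix of this block
is not unitriangular. This holds for every algebraically closed field `k` of characteristic three
and every choice `θ` of complex values for the elements of `k`; such choices exist. -/
theorem result :
    commutator (SL F9) = ⊤ ∧ IsSimpleGroup (SL F9 ⧸ Subgroup.center (SL F9)) ∧
    (∃ θ : (AlgebraicClosure (ZMod 3))ˣ →* ℂˣ, Function.Injective θ) ∧
    ∀ (k : Type) [Field k] [IsAlgClosed k] [CharP k 3] (θ : kˣ →* ℂˣ), Function.Injective θ →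
      ∃ (I : Set (Irr (SL F9))) (J : Set (IBr 3 (SL F9) θ)), IsBlock 3 θ I J ∧ J.Nonempty ∧
        (∀ χ ∈ I, ∀ φ ∈ J, ¬ ∀ g : Reg 3 (SL F9), χ.1 g.1 = φ.1 g) ∧
        ¬ Unitriangular 3 θ I J := by
  have hcard : 4 ≤ Nat.card F9 := by
    rw [Nat.card_eq_fintype_card, card_F9]
    norm_num
  refine ⟨?_, Matrix.ProjectiveSpecialLinearGroup.rank_two_simple hcard, exists_lift 3,
    fun k _ _ _ θ hθ => main θ hθ⟩
  have h2 : (2 : F9) ≠ 0 := two_ne_zero_of_char3
  obtain ⟨t, ht⟩ := exists_fourth card_F9 h2
  have ht' : (t : F9) ^ 4 = -1 := by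
    rw [← Units.val_pow_eq_pow_val, ht, Units.val_neg, Units.val_one]
  refine Matrix.SL2.commutator_eq_top (a := (t : F9)) t.ne_zero ?_
  intro h
  have h3 : (t : F9) ^ 4 = 1 := by
    have : (t : F9) ^ 4 = ((t : F9) ^ 2) ^ 2 := by ring
    rw [this, h, one_pow]
  rw [ht'] at h3
  apply h2
  linear_combination -h3

end Pool.Agent.Results.MP_5c3aa2_al.FaithfulBlockSL29
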